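import Mathlib
import Pool.Agent.N253.LC.Der
import Pool.Agent.N253.SM.Fin

/-!
# A passage very near the critical point

The parameter `c` is such that the orbit of the critical value stays at distance at least `ρ` from the
critical point and is expanding. An orbit which passes at the distance `s`, arbitrarily small, follows
the orbit of the critical value for a time `m`, and the derivative is at least of the order
`ρ / (s m ^ 2)` (helper253).
-/

set_option autoImplicit false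

open Set Filter Metric Topology

namespace Pool.Agent.N253.UX

open Pool.Agent.TH279.MD Pool.Agent.Y298.SH Pool.Agent.Y298.SH.CD
open Pool.Agent.N253.LC.Der

/-- the summable thresholds -/
noncomputable def th (i : ℕ) : ℝ := 1 / (4 * ((i : ℝ) + 1) * (i + 2))

theorem th_pos (i : ℕ) : 0 < th i := by unfold th; positivity

theorem th_le (i : ℕ) : th i ≤ 1 / 8 := by
  unfold th
  have h0 : (0 : ℝ) ≤ i := Nat.cast_nonneg i
  apply one_div_le_one_div_of_le (by norm_num)
  nlinarith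

theorem th_sum (m : ℕ) : ∑ i ∈ Finset.range m, th i = 1 / 4 * (1 - 1 / ((m : ℝ) + 1)) := by
  induction m with
  | zero => simp
  | succ m ih =>
    rw [Finset.sum_range_succ, ih]
    unfold th
    push_cast
    field_simp
    ring

/-- **A deep passage.** -/
theorem deep_pass {d : ℕ} (hd : 2 ≤ d) {c : ℂ} (hbd : ∀ j, ‖zz d c j‖ ≤ 2) {ρ q η : ℝ}
    (hρ : ∀ j, ρ ≤ ‖zz d c j‖) (hρ0 : 0 < ρ) (hq : 0 < q) (hη : 0 < η)
    (hexp : ∀ n : ℕ, q * Real.exp (η * n) ≤ Pd d c n) {w : ℂ} (hw : w ≠ 0) :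
    ∃ m : ℕ, (∀ i < m, ‖(f d c)^[i] (f d c w)‖ ≤ 3) ∧
      (m = 0 ∨ q * Real.exp (η * (m - 1 : ℕ)) * ‖w‖ ^ d ≤ 1) ∧
      ρ ≤ 4 * ((m : ℝ) + 1) * (m + 2) * Real.exp (2 * (d : ℝ)) * ‖w‖ ^ d *
        ‖deriv ((f d c)^[m]) (f d c w)‖ := by
  have hdR : (2 : ℝ) ≤ d := by exact_mod_cast hd
  have hs : 0 < ‖w‖ := norm_pos_iff.mpr hw
  have hsd : 0 < ‖w‖ ^ d := pow_pos hs d
  obtain ⟨γ, hγ⟩ : ∃ γ : ℝ → ℂ, γ = fun l : ℝ => c + (l : ℂ) * w ^ d := ⟨_, rfl⟩
  have hγ0 : γ 0 = c := by rw [hγ]; simp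
  have hγ1 : γ 1 = f d c w := by rw [hγ]; unfold f; simp [add_comm]
  have hγd : ∀ l, HasDerivAt γ (w ^ d) l := by
    intro l
    rw [hγ]
    have h1 : HasDerivAt (fun x : ℝ => (x : ℂ)) 1 l := Complex.ofRealCLM.hasDerivAt
    simpa using (h1.mul_const (w ^ d)).const_add c
  -- the time
  have hex : ∃ i : ℕ, ∃ l ∈ Icc (0 : ℝ) 1, th i * ‖zz d c i‖ ≤ ‖w‖ ^ d * ‖deriv ((f d c)^[i]) (γ l)‖ := by
    have h1 : Tendsto (fun n : ℕ => ‖w‖ ^ d * (q * Real.exp (η * n))) atTop atTop := by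
      apply Tendsto.const_mul_atTop hsd
      apply Tendsto.const_mul_atTop hq
      exact Real.tendsto_exp_atTop.comp (tendsto_natCast_atTop_atTop.const_mul_atTop hη)
    obtain ⟨i, hi⟩ := (h1.eventually_ge_atTop 1).exists
    refine ⟨i, 0, left_mem_Icc.mpr zero_le_one, ?_⟩
    rw [hγ0]
    have h2 := hexp i
    unfold Pd at h2
    have h3 := th_le i
    have h4 := hbd i
    calc th i * ‖zz d c i‖ ≤ 1 / 8 * 2 := mul_le_mul h3 h4 (norm_nonneg _) (by norm_num)
      _ ≤ 1 := by norm_num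
      _ ≤ _ := hi
      _ ≤ _ := mul_le_mul_of_nonneg_left h2 hsd.le
  classical
  obtain ⟨m, hm⟩ : ∃ m, m = Nat.find hex := ⟨_, rfl⟩
  have hm1 : ∃ l ∈ Icc (0 : ℝ) 1, th m * ‖zz d c m‖ ≤ ‖w‖ ^ d * ‖deriv ((f d c)^[m]) (γ l)‖ := by
    rw [hm]; exact Nat.find_spec hex
  have hm2 : ∀ i < m, ∀ l ∈ Icc (0 : ℝ) 1, ‖w‖ ^ d * ‖deriv ((f d c)^[i]) (γ l)‖ <
      th i * ‖zz d c i‖ := by
    intro i hi l hl
    rw [hm] at hi
    have h1 := Nat.find_min hex hi
    push Not at h1
    exact h1 l hl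
  -- the mean value theorem
  have hmv : ∀ i < m, ∀ l ∈ Icc (0 : ℝ) 1, ‖(f d c)^[i] (γ l) - zz d c i‖ ≤ th i * ‖zz d c i‖ := by
    intro i hi l hl
    have h1 := norm_image_sub_le_of_norm_deriv_le_segment' (f := fun x => (f d c)^[i] (γ x))
      (f' := fun x => deriv ((f d c)^[i]) (γ x) * w ^ d) (a := 0) (b := 1)
      (C := th i * ‖zz d c i‖) (by
        intro x _
        have h2 : HasDerivAt ((f d c)^[i]) (deriv ((f d c)^[i]) (γ x)) (γ x) :=
          ((diff_it d c i).differentiable one_ne_zero _).hasDerivAt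
        exact (h2.comp_of_eq x (hγd x) rfl).hasDerivWithinAt) (by
        intro x hx
        rw [norm_mul, norm_pow, mul_comm]
        exact (hm2 i hi x (Ico_subset_Icc_self hx)).le) l hl
    have h2 : (f d c)^[i] (γ 0) = zz d c i := by rw [hγ0]; rfl
    simp only [h2, sub_zero] at h1
    refine h1.trans ?_
    have h3 : 0 ≤ th i * ‖zz d c i‖ := mul_nonneg (th_pos i).le (norm_nonneg _)
    calc th i * ‖zz d c i‖ * l ≤ th i * ‖zz d c i‖ * 1 := mul_le_mul_of_nonneg_left hl.2 h3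
      _ = _ := mul_one _
  have hup : ∀ i < m, ∀ l ∈ Icc (0 : ℝ) 1, ‖(f d c)^[i] (γ l)‖ ≤ (1 + th i) * ‖zz d c i‖ := by
    intro i hi l hl
    have h1 := hmv i hi l hl
    have h2 := norm_add_le ((f d c)^[i] (γ l) - zz d c i) (zz d c i)
    rw [sub_add_cancel] at h2
    linarith
  have hlow : ∀ i < m, ∀ l ∈ Icc (0 : ℝ) 1, (1 - th i) * ‖zz d c i‖ ≤ ‖(f d c)^[i] (γ l)‖ := by
    intro i hi l hl
    have h1 := hmv i hi l hl
    have h2 := norm_sub_norm_le (zz d c i) ((f d c)^[i] (γ l))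
    rw [norm_sub_rev] at h2
    linarith
  have hone : (1 : ℝ) ∈ Icc (0 : ℝ) 1 := right_mem_Icc.mpr zero_le_one
  refine ⟨m, ?_, ?_, ?_⟩
  · intro i hi
    rw [← hγ1]
    refine (hup i hi 1 hone).trans ?_
    have h1 := th_le i
    have h2 := hbd i
    have h3 := norm_nonneg (zz d c i)
    nlinarith [th_pos i]
  · rcases Nat.eq_zero_or_pos m with h0 | h0
    · exact Or.inl h0
    · right
      have h1 := (hm2 (m - 1) (by omega) 0 (left_mem_Icc.mpr zero_le_one)).le
      rw [hγ0] at h1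
      have h2 := hexp (m - 1)
      unfold Pd at h2
      calc q * Real.exp (η * (m - 1 : ℕ)) * ‖w‖ ^ d
          ≤ ‖deriv ((f d c)^[m - 1]) c‖ * ‖w‖ ^ d := mul_le_mul_of_nonneg_right h2 hsd.le
        _ = ‖w‖ ^ d * ‖deriv ((f d c)^[m - 1]) c‖ := mul_comm _ _
        _ ≤ _ := h1
        _ ≤ 1 / 8 * 2 := mul_le_mul (th_le _) (hbd _) (norm_nonneg _) (by norm_num)
        _ ≤ 1 := by norm_num
  · obtain ⟨l, hl, h1⟩ := hm1
    have key : ‖deriv ((f d c)^[m]) (γ l)‖ ≤ Real.exp (2 * (d : ℝ)) *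
        ‖deriv ((f d c)^[m]) (f d c w)‖ := by
      have h2 := deriv_prod d c 0 m (γ l)
      have h3 := deriv_prod d c 0 m (γ 1)
      simp only [zero_add, Function.iterate_zero, deriv_id, norm_one, one_mul] at h2 h3
      rw [← hγ1, h2, h3]
      have h4 : ∏ i ∈ Finset.range m, ‖(f d c)^[i] (γ l)‖ ^ (d - 1) ≤
          ∏ i ∈ Finset.range m, (Real.exp (3 * th i * ((d - 1 : ℕ) : ℝ)) *
            ‖(f d c)^[i] (γ 1)‖ ^ (d - 1)) := by
        apply Finset.prod_le_prod
        · intro i _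
          positivity
        · intro i hi
          rw [Finset.mem_range] at hi
          have h5 := hup i hi l hl
          have h6 := hlow i hi 1 hone
          have h7 : (1 + th i) * ‖zz d c i‖ ≤ Real.exp (3 * th i) * ‖(f d c)^[i] (γ 1)‖ := by
            have h8 : 1 + 3 * th i ≤ Real.exp (3 * th i) := by
              have := Real.add_one_le_exp (3 * th i)
              linarith
            have h9 : (1 + th i) ≤ (1 + 3 * th i) * (1 - th i) := by
              have h10 := th_le i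
              have h11 := th_pos i
              nlinarith
            calc (1 + th i) * ‖zz d c i‖ ≤ (1 + 3 * th i) * (1 - th i) * ‖zz d c i‖ :=
                  mul_le_mul_of_nonneg_right h9 (norm_nonneg _)
              _ = (1 + 3 * th i) * ((1 - th i) * ‖zz d c i‖) := by ring
              _ ≤ (1 + 3 * th i) * ‖(f d c)^[i] (γ 1)‖ := by
                  apply mul_le_mul_of_nonneg_left h6
                  have := th_pos i
                  linarith
              _ ≤ _ := mul_le_mul_of_nonneg_right h8 (norm_nonneg _)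
          calc ‖(f d c)^[i] (γ l)‖ ^ (d - 1)
              ≤ (Real.exp (3 * th i) * ‖(f d c)^[i] (γ 1)‖) ^ (d - 1) :=
                pow_le_pow_left₀ (norm_nonneg _) (h5.trans h7) _
            _ = _ := by
                rw [mul_pow, ← Real.exp_nat_mul]
                congr 2
                ring
      rw [Finset.prod_mul_distrib, ← Real.exp_sum] at h4
      have h5 : ∑ i ∈ Finset.range m, 3 * th i * ((d - 1 : ℕ) : ℝ) ≤ 2 * d := by
        rw [← Finset.sum_mul, ← Finset.mul_sum, th_sum]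
        have h6 : ((d - 1 : ℕ) : ℝ) ≤ d := by exact_mod_cast Nat.sub_le d 1
        have h7 : (0 : ℝ) ≤ ((d - 1 : ℕ) : ℝ) := Nat.cast_nonneg _
        have h8 : 0 ≤ 1 / ((m : ℝ) + 1) := by positivity
        have h9 : 1 / ((m : ℝ) + 1) ≤ 1 := by
          rw [div_le_one (by positivity)]
          have : (0 : ℝ) ≤ m := Nat.cast_nonneg m
          linarith
        nlinarith
      have h6 : 0 ≤ ∏ i ∈ Finset.range m, ‖(f d c)^[i] (γ 1)‖ ^ (d - 1) :=
        Finset.prod_nonneg fun i _ => by positivity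
      calc (d : ℝ) ^ m * ∏ i ∈ Finset.range m, ‖(f d c)^[i] (γ l)‖ ^ (d - 1)
          ≤ (d : ℝ) ^ m * (Real.exp (∑ i ∈ Finset.range m, 3 * th i * ((d - 1 : ℕ) : ℝ)) *
            ∏ i ∈ Finset.range m, ‖(f d c)^[i] (γ 1)‖ ^ (d - 1)) :=
            mul_le_mul_of_nonneg_left h4 (by positivity)
        _ ≤ (d : ℝ) ^ m * (Real.exp (2 * (d : ℝ)) *
            ∏ i ∈ Finset.range m, ‖(f d c)^[i] (γ 1)‖ ^ (d - 1)) := by
            apply mul_le_mul_of_nonneg_left _ (by positivity)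
            exact mul_le_mul_of_nonneg_right (Real.exp_le_exp.mpr h5) h6
        _ = _ := by ring
    have h2 : th m * ρ ≤ ‖w‖ ^ d * (Real.exp (2 * (d : ℝ)) *
        ‖deriv ((f d c)^[m]) (f d c w)‖) :=
      (mul_le_mul_of_nonneg_left (hρ m) (th_pos m).le).trans
        (h1.trans (mul_le_mul_of_nonneg_left key hsd.le))
    unfold th at h2
    rw [one_div, inv_mul_le_iff₀ (by positivity)] at h2
    calc ρ ≤ _ := h2
      _ = _ := by ring

end Pool.Agent.N253.UX
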