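import Mathlib
import Pool.Agent.N253.UX.Deep

/-!
# Passages very near the critical point: exponential rate, uniform in the parameter (helper253)
-/

set_option autoImplicit false

open Set Filter Metric Topology

namespace Pool.Agent.N253.UX

open Pool.Agent.TH279.MD Pool.Agent.Y298.SH Pool.Agent.Y298.SH.CD
open Pool.Agent.N253.LC.Der

theorem deriv_succ_left (d : ℕ) (c : ℂ) (j : ℕ) (y : ℂ) :
    deriv ((f d c)^[j + 1]) y = deriv ((f d c)^[j]) (f d c y) * (d * y ^ (d - 1)) := by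
  rw [Function.iterate_succ]
  have h1 : HasDerivAt (f d c) (d * y ^ (d - 1)) y := by
    unfold f
    exact (hasDerivAt_pow d _).add_const c
  have h2 : DifferentiableAt ℂ ((f d c)^[j]) (f d c y) :=
    (diff_it d c j).differentiable one_ne_zero _
  exact (h2.hasDerivAt.comp y h1).deriv

/-- **Rates at deep passages.** -/
theorem deep_rate {d : ℕ} (hd : 2 ≤ d) {κ η g τ τ' : ℝ} (hκ : 0 < κ) (hκ1 : κ ≤ 1) (hη : 0 < η)
    (hg : 0 < g) (hg1 : g ≤ 1) (hτ : 0 < τ) (hττ : τ < τ') :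
    ∃ η' R₀ : ℝ, 0 < η' ∧ η' ≤ η ∧ 0 < R₀ ∧ R₀ ≤ 1 ∧ ∀ R : ℝ, 0 < R → R ≤ R₀ → ∀ c : ℂ,
      (∀ j, ‖zz d c j‖ ≤ 2) → (∀ j, R ^ τ ≤ ‖zz d c j‖) →
      (∀ n : ℕ, κ * R ^ (1 - g) * Real.exp (η * n) ≤ Pd d c n) →
      ∀ w : ℂ, w ≠ 0 → ‖w‖ < R ^ τ' → ∃ m : ℕ, (∀ i < m, ‖(f d c)^[i] (f d c w)‖ ≤ 3) ∧
        4 / κ * Real.exp (η' * (m + 1 : ℕ)) ≤ ‖deriv ((f d c)^[m + 1]) w‖ := by
  have hdR : (2 : ℝ) ≤ d := by exact_mod_cast hd
  have hτ' : 0 < τ' := hτ.trans hττ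
  obtain ⟨ω, hω⟩ : ∃ ω : ℝ, ω = 1 - τ / τ' := ⟨_, rfl⟩
  have hω0 : 0 < ω := by
    rw [hω, sub_pos, div_lt_one hτ']
    exact hττ
  have hlκ : Real.log κ ≤ 0 := Real.log_nonpos hκ.le hκ1
  obtain ⟨K1, hK1⟩ : ∃ K1 : ℝ, K1 = (d + 1 / τ') / η := ⟨_, rfl⟩
  obtain ⟨K2, hK2⟩ : ∃ K2 : ℝ, K2 = 2 + (-Real.log κ) / η := ⟨_, rfl⟩
  have hK10 : 0 < K1 := by rw [hK1]; positivity
  have hK20 : 2 ≤ K2 := by
    rw [hK2]
    have : 0 ≤ (-Real.log κ) / η := div_nonneg (by linarith) hη.le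
    linarith
  obtain ⟨η', hη'⟩ : ∃ η' : ℝ, η' = min η (ω / (4 * K1)) := ⟨_, rfl⟩
  have hη'0 : 0 < η' := by rw [hη']; exact lt_min hη (by positivity)
  have hη'1 : η' ≤ η := by rw [hη']; exact min_le_left _ _
  have hη'2 : 4 * K1 * η' ≤ ω := by
    have h1 : η' ≤ ω / (4 * K1) := by rw [hη']; exact min_le_right _ _
    rw [le_div_iff₀ (by positivity)] at h1
    linarith
  obtain ⟨K4, hK4⟩ : ∃ K4 : ℝ, K4 = 64 * Real.exp (2 * (d : ℝ)) / (κ * η' ^ 2) := ⟨_, rfl⟩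
  have hK40 : 0 < K4 := by rw [hK4]; positivity
  obtain ⟨K5, hK5⟩ : ∃ K5 : ℝ, K5 = max 0 ((Real.log K4 + 2 * η' * K2) * 2 / (ω * τ')) := ⟨_, rfl⟩
  have hK50 : 0 ≤ K5 := by rw [hK5]; exact le_max_left _ _
  have hK51 : (Real.log K4 + 2 * η' * K2) * 2 ≤ K5 * (ω * τ') := by
    have h1 : (Real.log K4 + 2 * η' * K2) * 2 / (ω * τ') ≤ K5 := by rw [hK5]; exact le_max_right _ _
    rwa [div_le_iff₀ (by positivity)] at h1
  refine ⟨η', Real.exp (-K5), hη'0, hη'1, Real.exp_pos _, Real.exp_le_one_iff.mpr (by linarith), ?_⟩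
  intro R hR hRR c hbd hρ hexp w hw hwR
  have hs : 0 < ‖w‖ := norm_pos_iff.mpr hw
  obtain ⟨ℓ, hℓ⟩ : ∃ ℓ : ℝ, ℓ = -Real.log R := ⟨_, rfl⟩
  obtain ⟨L, hL⟩ : ∃ L : ℝ, L = -Real.log ‖w‖ := ⟨_, rfl⟩
  have hRe : R = Real.exp (-ℓ) := by rw [hℓ, neg_neg, Real.exp_log hR]
  have hse : ‖w‖ = Real.exp (-L) := by rw [hL, neg_neg, Real.exp_log hs]
  have hℓK : K5 ≤ ℓ := by
    have h1 := Real.log_le_log hR hRR
    rw [Real.log_exp] at h1
    linarith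
  have hLℓ : τ' * ℓ < L := by
    have h1 := Real.log_lt_log hs hwR
    rw [Real.log_rpow hR] at h1
    rw [hL, hℓ]
    linarith
  have hL0 : 0 < L := lt_of_le_of_lt (mul_nonneg hτ'.le (hK50.trans hℓK)) hLℓ
  have hℓ0 : 0 ≤ ℓ := hK50.trans hℓK
  have hℓL : ℓ ≤ 1 / τ' * L := by
    rw [div_mul_eq_mul_div, one_mul, le_div_iff₀ hτ']
    linarith
  have hRτ : R ^ τ = Real.exp (-(τ * ℓ)) := by
    rw [hRe, ← Real.exp_mul]
    congr 1
    ring
  obtain ⟨m, h1, h2, h3⟩ := deep_pass hd hbd hρ (Real.rpow_pos_of_pos hR τ)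
    (mul_pos hκ (Real.rpow_pos_of_pos hR (1 - g))) hη hexp hw
  refine ⟨m, h1, ?_⟩
  have hm0 : (0 : ℝ) ≤ m := Nat.cast_nonneg m
  -- the time
  have hm : (m : ℝ) + 1 ≤ K1 * L + K2 := by
    rcases Nat.eq_zero_or_pos m with h0 | h0
    · rw [h0]
      have : 0 ≤ K1 * L := by positivity
      push_cast
      linarith
    · rcases h2 with h2 | h2
      · omega
      have h4 : Real.log (κ * R ^ (1 - g) * Real.exp (η * (m - 1 : ℕ)) * ‖w‖ ^ d) ≤ 0 := by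
        apply Real.log_nonpos _ h2
        have := Real.rpow_pos_of_pos hR (1 - g)
        positivity
      rw [Real.log_mul (by have := Real.rpow_pos_of_pos hR (1 - g); positivity) (by positivity),
        Real.log_mul (by have := Real.rpow_pos_of_pos hR (1 - g); positivity) (by positivity),
        Real.log_mul hκ.ne' (Real.rpow_pos_of_pos hR (1 - g)).ne', Real.log_rpow hR, Real.log_exp,
        Real.log_pow, Nat.cast_sub h0, Nat.cast_one] at h4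
      have h5 : (1 - g) * ℓ ≤ 1 / τ' * L := by
        have : (1 - g) * ℓ ≤ 1 * ℓ := mul_le_mul_of_nonneg_right (by linarith) hℓ0
        linarith
      have h6 : η * ((m : ℝ) - 1) ≤ d * L + 1 / τ' * L - Real.log κ := by
        rw [hL, hℓ] at *
        nlinarith
      have h7 : (m : ℝ) - 1 ≤ (d * L + 1 / τ' * L - Real.log κ) / η := by
        rw [le_div_iff₀ hη]
        linarith
      have h8 : (d * L + 1 / τ' * L - Real.log κ) / η = K1 * L + (-Real.log κ) / η := by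
        rw [hK1]
        field_simp
        ring
      rw [h8] at h7
      rw [hK2]
      linarith
  -- the derivative
  have hY : ‖deriv ((f d c)^[m + 1]) w‖ = ‖deriv ((f d c)^[m]) (f d c w)‖ * (d * ‖w‖ ^ (d - 1)) := by
    rw [deriv_succ_left, norm_mul, norm_mul, norm_pow, RCLike.norm_natCast]
  have hwd : ‖w‖ ^ d = ‖w‖ * ‖w‖ ^ (d - 1) := by
    rw [← pow_succ']
    congr 1
    omega
  have h4 : R ^ τ * d ≤ 4 * ((m : ℝ) + 1) * (m + 2) * Real.exp (2 * (d : ℝ)) * ‖w‖ *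
      ‖deriv ((f d c)^[m + 1]) w‖ := by
    rw [hY]
    calc R ^ τ * d ≤ 4 * ((m : ℝ) + 1) * (m + 2) * Real.exp (2 * (d : ℝ)) * ‖w‖ ^ d *
        ‖deriv ((f d c)^[m]) (f d c w)‖ * d := mul_le_mul_of_nonneg_right h3 (by positivity)
      _ = _ := by rw [hwd]; ring
  have hx : ((m : ℝ) + 1) * (m + 2) ≤ 4 / η' ^ 2 * Real.exp (η' * (m + 1 : ℕ)) := by
    have h5 : (η' * ((m + 1 : ℕ) : ℝ)) ^ 2 / 2 ≤ Real.exp (η' * (m + 1 : ℕ)) := by
      have h6 := Real.quadratic_le_exp_of_nonneg (x := η' * ((m + 1 : ℕ) : ℝ)) (by positivity)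
      have h7 : 0 ≤ η' * ((m + 1 : ℕ) : ℝ) := by positivity
      linarith
    have h8 : 4 / η' ^ 2 * ((η' * ((m + 1 : ℕ) : ℝ)) ^ 2 / 2) = 2 * ((m : ℝ) + 1) ^ 2 := by
      push_cast
      field_simp
      ring
    have h9 := mul_le_mul_of_nonneg_left h5 (show (0 : ℝ) ≤ 4 / η' ^ 2 by positivity)
    rw [h8] at h9
    refine le_trans ?_ h9
    nlinarith
  have hE : Real.exp (η' * (m + 1 : ℕ)) * Real.exp (η' * (m + 1 : ℕ)) ≤
      Real.exp (ω / 2 * L + 2 * η' * K2) := by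
    rw [← Real.exp_add]
    apply Real.exp_le_exp.mpr
    push_cast
    have h5 : 2 * η' * ((m : ℝ) + 1) ≤ 2 * η' * (K1 * L + K2) :=
      mul_le_mul_of_nonneg_left hm (by positivity)
    have h6 : 4 * K1 * η' * L ≤ ω * L := mul_le_mul_of_nonneg_right hη'2 hL0.le
    nlinarith
  have hfin : K4 * Real.exp (ω / 2 * L + 2 * η' * K2) * ‖w‖ ≤ R ^ τ := by
    rw [hRτ, hse, ← Real.exp_log hK40, ← Real.exp_add, ← Real.exp_add]
    apply Real.exp_le_exp.mpr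
    have h5 : K5 * (ω * τ') ≤ ω * L := by
      have h6 : K5 * τ' ≤ L := by nlinarith
      calc K5 * (ω * τ') = ω * (K5 * τ') := by ring
        _ ≤ ω * L := mul_le_mul_of_nonneg_left h6 hω0.le
    have h6 : τ * ℓ ≤ τ / τ' * L := by
      rw [div_mul_eq_mul_div, le_div_iff₀ hτ']
      nlinarith
    have h7 : ω * L = L - τ / τ' * L := by rw [hω]; ring
    linarith
  have h5 : (4 / κ * Real.exp (η' * (m + 1 : ℕ))) *
      (4 * ((m : ℝ) + 1) * (m + 2) * Real.exp (2 * (d : ℝ)) * ‖w‖) ≤ R ^ τ := by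
    calc (4 / κ * Real.exp (η' * (m + 1 : ℕ))) *
      (4 * ((m : ℝ) + 1) * (m + 2) * Real.exp (2 * (d : ℝ)) * ‖w‖)
        = 16 / κ * Real.exp (2 * (d : ℝ)) * Real.exp (η' * (m + 1 : ℕ)) * ‖w‖ *
          (((m : ℝ) + 1) * (m + 2)) := by
          field_simp
          ring
      _ ≤ 16 / κ * Real.exp (2 * (d : ℝ)) * Real.exp (η' * (m + 1 : ℕ)) * ‖w‖ *
          (4 / η' ^ 2 * Real.exp (η' * (m + 1 : ℕ))) :=
          mul_le_mul_of_nonneg_left hx (by positivity)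
      _ = K4 * (Real.exp (η' * (m + 1 : ℕ)) * Real.exp (η' * (m + 1 : ℕ))) * ‖w‖ := by
          rw [hK4]
          field_simp
          ring
      _ ≤ K4 * Real.exp (ω / 2 * L + 2 * η' * K2) * ‖w‖ := by gcongr
      _ ≤ _ := hfin
  have h6 : 0 < 4 * ((m : ℝ) + 1) * (m + 2) * Real.exp (2 * (d : ℝ)) * ‖w‖ := by positivity
  have h7 : R ^ τ ≤ R ^ τ * d := by
    have := Real.rpow_pos_of_pos hR τ
    nlinarith
  have h8 := h5.trans (h7.trans h4)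
  rw [mul_comm (4 * ((m : ℝ) + 1) * (m + 2) * Real.exp (2 * (d : ℝ)) * ‖w‖)] at h8
  exact le_of_mul_le_mul_right h8 h6

end Pool.Agent.N253.UX
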