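import Mathlib
import Pool.Agent.N253.UX.Rate
import Pool.Agent.N253.EC.Stm
import Pool.Agent.N253.LS.Semi

/-!
# Uniform expansion along escaping orbits near a parameter with a Lyapunov exponent

The rate is the same for all parameters `c` of `M_d` in the disc of radius `R` about `c₀` whose
critical orbit does not enter the disc of radius `R ^ τ`, and for all `R` (helper253).
-/

set_option autoImplicit false

open Set Filter Metric Topology

namespace Pool.Agent.N253.UX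

open Pool.Agent.TH279.MD Pool.Agent.Y298.SH Pool.Agent.Y298.SH.CD Pool.Agent.Y298.CA
open Pool.Agent.N253.LC.Der
open Pool.Agent.N253.EC (S_EXN semi_chain)

/-- expansion along escaping orbits -/
def ExpEsc (d : ℕ) (c : ℂ) (κ η : ℝ) : Prop := ∀ (y : ℂ) (n : ℕ),
  (∀ j < n, ‖(f d c)^[j] y‖ ≤ 3) → 3 < ‖(f d c)^[n] y‖ → κ * Real.exp (η * n) ≤ ‖deriv ((f d c)^[n]) y‖

theorem norm_up {d : ℕ} {c z : ℂ} (hc : ‖c‖ ≤ 2) : ‖f d c z‖ ≤ ‖z‖ ^ d + 2 := by
  unfold f
  refine (norm_add_le _ _).trans ?_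
  rw [norm_pow]
  linarith

/-- **Uniform expansion along escaping orbits.** -/
theorem uexp (hE : S_EXN) {d : ℕ} {χ : ℝ} {c₀ : ℂ} (hd : 2 ≤ d) (hL : Lyap d χ c₀) {τ : ℝ}
    (hτ1 : 3 / (4 * (d : ℝ)) ≤ τ) (hτ2 : τ * ((d : ℝ) - 1) < 1) :
    ∃ η R₀ : ℝ, 0 < η ∧ η ≤ Real.log d ∧ 0 < R₀ ∧ ∀ R : ℝ, 0 < R → R ≤ R₀ →
    ∀ c ∈ N62a1eb23.multibrotSet d, ‖c - c₀‖ ≤ R → (∀ k : ℕ, 1 ≤ k → R ^ τ ≤ ‖(f d c)^[k] 0‖) →
    ∃ κ : ℝ, 0 < κ ∧ κ ≤ 1 ∧ ExpEsc d c κ η := by
  have hdR : (2 : ℝ) ≤ d := by exact_mod_cast hd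
  have hd1 : (0 : ℝ) < (d : ℝ) - 1 := by linarith
  have hτ0 : 0 < τ := lt_of_lt_of_le (by positivity) hτ1
  obtain ⟨τ', hτ'⟩ : ∃ τ' : ℝ, τ' = (τ + 1 / (d - 1)) / 2 := ⟨_, rfl⟩
  have hττ : τ < τ' := by
    have h1 : τ < 1 / (d - 1) := by rw [lt_div_iff₀ hd1]; exact hτ2
    rw [hτ']
    linarith
  have hτ'2 : τ' * ((d : ℝ) - 1) < 1 := by
    have h1 : τ' * ((d : ℝ) - 1) = (τ * ((d : ℝ) - 1) + 1) / 2 := by
      rw [hτ']
      field_simp
    rw [h1]
    linarith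
  have hτ'0 : 0 < τ' := hτ0.trans hττ
  obtain ⟨g, hg⟩ : ∃ g : ℝ, g = (1 - τ' * ((d : ℝ) - 1)) / 2 := ⟨_, rfl⟩
  have hg0 : 0 < g := by rw [hg]; linarith
  have hg1 : g ≤ 1 := by
    rw [hg]
    have : 0 < τ' * ((d : ℝ) - 1) := mul_pos hτ'0 hd1
    linarith
  obtain ⟨κ, η, a, r₀, hκ, hκ1, hη, ha, ha1, hr₀, hr₀4, H⟩ :=
    hE d χ c₀ hd hL τ' g hτ'0 (by rw [hg]; linarith) hg0
  obtain ⟨η', R₁, hη', hη'η, hR₁, hR₁1, HD⟩ := deep_rate hd hκ hκ1 hη hg0 hg1 hτ0 hττ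
  have hlog : 0 < Real.log d := Real.log_pos (by linarith)
  obtain ⟨η₂, hη₂⟩ : ∃ η₂ : ℝ, η₂ = min η' (Real.log d) := ⟨_, rfl⟩
  have hη₂0 : 0 < η₂ := by rw [hη₂]; exact lt_min hη' hlog
  have hη₂1 : η₂ ≤ η' := by rw [hη₂]; exact min_le_left _ _
  have hη₂2 : η₂ ≤ η := hη₂1.trans hη'η
  refine ⟨η₂, min r₀ R₁, hη₂0, by rw [hη₂]; exact min_le_right _ _, lt_min hr₀ hR₁, ?_⟩
  intro R hR hRR c hM hc hk
  have hRr : R ≤ r₀ := hRR.trans (min_le_left _ _)
  have hRR1 : R ≤ R₁ := hRR.trans (min_le_right _ _)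
  have hR1 : R ≤ 1 := hRR1.trans hR₁1
  have hbd : ∀ j, ‖zz d c j‖ ≤ 2 := by
    intro j
    have h1 := (Pool.Agent.H712R2.mem_multibrot_iff hd c).mp hM (j + 1)
    rw [P_succ_eq hd] at h1
    exact h1
  have hc2 : ‖c‖ ≤ 2 := hbd 0
  have hlow : ∀ j, R ^ τ ≤ ‖zz d c j‖ := by
    intro j
    have h3 := hk (j + 1) (by omega)
    rw [Function.iterate_succ_apply] at h3
    have h4 : f d c 0 = c := by
      unfold f
      rw [zero_pow (by omega), zero_add]
    rw [h4] at h3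
    exact h3
  have hRττ : R ^ τ' ≤ R ^ τ := Real.rpow_le_rpow_of_exponent_ge hR hR1 hττ.le
  have hRg : 0 < R ^ (1 - g) := Real.rpow_pos_of_pos hR _
  have hRg1 : R ^ (1 - g) ≤ 1 := Real.rpow_le_one hR.le hR1 (by linarith)
  have hexp : ∀ n : ℕ, κ * R ^ (1 - g) * Real.exp (η * n) ≤ Pd d c n := by
    intro n
    refine (H c R c n hR hRr hc (fun j _ => ?_) (fun j _ => hRττ.trans (hlow j))).1
    have := hbd j
    unfold zz at this
    linarith
  have hDp := HD R hR hRR1 c hbd hlow hexp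
  obtain ⟨k0, hk0⟩ : ∃ k0 : ℝ, k0 = κ * R ^ (1 - g) * Real.exp (-η) := ⟨_, rfl⟩
  have hk00 : 0 < k0 := by rw [hk0]; positivity
  have hk01 : k0 ≤ 1 := by
    rw [hk0]
    have h1 : Real.exp (-η) ≤ 1 := Real.exp_le_one_iff.mpr (by linarith)
    calc κ * R ^ (1 - g) * Real.exp (-η) ≤ 1 * 1 * 1 := by gcongr
      _ = 1 := by norm_num
  refine ⟨k0, hk00, hk01, ?_⟩
  intro y n
  induction n using Nat.strong_induction_on generalizing y with
  | _ n ih =>
  intro h3 hesc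
  by_cases hdeep : ∃ j, j < n ∧ ‖(f d c)^[j] y‖ < R ^ τ'
  · classical
    obtain ⟨j0, hj0⟩ : ∃ j0, j0 = Nat.find hdeep := ⟨_, rfl⟩
    have hj1 : j0 < n ∧ ‖(f d c)^[j0] y‖ < R ^ τ' := by rw [hj0]; exact Nat.find_spec hdeep
    have hj2 : ∀ j < j0, R ^ τ' ≤ ‖(f d c)^[j] y‖ := by
      intro j hj
      rw [hj0] at hj
      have h4 := Nat.find_min hdeep hj
      push Not at h4
      refine h4 (lt_trans hj ?_)
      rw [← hj0]
      exact hj1.1
    obtain ⟨w, hw⟩ : ∃ w, w = (f d c)^[j0] y := ⟨_, rfl⟩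
    have hw0 : w ≠ 0 := by
      intro h0
      have h1 : (f d c)^[n] y = zz d c (n - j0 - 1) := by
        have e : n = (n - j0 - 1) + (1 + j0) := by omega
        conv_lhs => rw [e]
        rw [Function.iterate_add_apply, Function.iterate_add_apply, ← hw, h0]
        unfold zz
        congr 1
        unfold f
        rw [Function.iterate_one, zero_pow (by omega), zero_add]
      rw [h1] at hesc
      have := hbd (n - j0 - 1)
      linarith
    obtain ⟨m, hm1, hm2⟩ := hDp w hw0 (by rw [hw]; exact hj1.2)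
    have hnm : j0 + 1 + m ≤ n := by
      by_contra hcon
      push Not at hcon
      have h4 := hm1 (n - j0 - 1) (by omega)
      have h5 : (f d c)^[n - j0 - 1] (f d c w) = (f d c)^[n] y := by
        rw [hw, ← Function.iterate_succ_apply' (f d c) j0 y, ← Function.iterate_add_apply]
        congr 1
        omega
      rw [h5] at h4
      linarith
    obtain ⟨n', hn'⟩ : ∃ n', n = n' + (m + 1 + j0) := ⟨n - (m + 1 + j0), by omega⟩
    have hz : (f d c)^[m + 1] w = (f d c)^[m + 1 + j0] y := by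
      rw [hw, ← Function.iterate_add_apply]
    have hI := ih n' (by omega) ((f d c)^[m + 1] w) (fun j hj => by
      rw [hz, ← Function.iterate_add_apply]
      exact h3 _ (by omega)) (by
      rw [hz, ← Function.iterate_add_apply, ← hn']
      exact hesc)
    have hfirst : κ / 4 * Real.exp (η₂ * j0) ≤ ‖deriv ((f d c)^[j0]) y‖ := by
      rcases Nat.eq_zero_or_pos j0 with h0 | h0
      · rw [h0]
        simp only [Function.iterate_zero, deriv_id, norm_one, Nat.cast_zero, mul_zero, Real.exp_zero]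
        linarith
      · have h4 := (H c R y j0 hR hRr hc (fun j hj => (h3 j (by omega)).trans (by norm_num)) hj2).2 h0
          (hj1.2.le.trans (Real.rpow_le_rpow_of_exponent_ge hR hR1 (hτ1.trans hττ.le)))
        refine le_trans ?_ h4
        have h5 : ‖y‖ ≤ 3 := by simpa using h3 0 (by omega)
        have h6 : R ^ τ' ≤ ‖y‖ := by simpa using hj2 0 h0
        have h7 : 0 < ‖y‖ := lt_of_lt_of_le (Real.rpow_pos_of_pos hR _) h6
        have h8 : 1 / 4 ≤ ‖y‖ ^ (-a) := by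
          rw [Real.rpow_neg h7.le, one_div]
          apply inv_anti₀ (Real.rpow_pos_of_pos h7 _)
          calc ‖y‖ ^ a ≤ 3 ^ a := Real.rpow_le_rpow h7.le h5 ha.le
            _ ≤ 3 ^ (1 : ℝ) := Real.rpow_le_rpow_of_exponent_le (by norm_num) ha1
            _ ≤ 4 := by norm_num
        have h9 : Real.exp (η₂ * j0) ≤ Real.exp (η * j0) :=
          Real.exp_le_exp.mpr (mul_le_mul_of_nonneg_right hη₂2 (Nat.cast_nonneg _))
        calc κ / 4 * Real.exp (η₂ * j0) = κ * Real.exp (η₂ * j0) * (1 / 4) := by ring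
          _ ≤ κ * Real.exp (η * j0) * ‖y‖ ^ (-a) := by gcongr
    have hdecomp : ‖deriv ((f d c)^[n]) y‖ = ‖deriv ((f d c)^[n']) ((f d c)^[m + 1] w)‖ *
        (‖deriv ((f d c)^[m + 1]) w‖ * ‖deriv ((f d c)^[j0]) y‖) := by
      rw [hn', semi_chain, semi_chain d c y (m + 1) j0, norm_mul, norm_mul, ← hz, ← hw]
    have hm3 : 4 / κ * Real.exp (η₂ * (m + 1 : ℕ)) ≤ ‖deriv ((f d c)^[m + 1]) w‖ := by
      refine le_trans ?_ hm2
      have h9 : Real.exp (η₂ * (m + 1 : ℕ)) ≤ Real.exp (η' * (m + 1 : ℕ)) :=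
        Real.exp_le_exp.mpr (mul_le_mul_of_nonneg_right hη₂1 (Nat.cast_nonneg _))
      gcongr
    rw [hdecomp]
    calc k0 * Real.exp (η₂ * n) = (k0 * Real.exp (η₂ * n')) *
          ((4 / κ * Real.exp (η₂ * (m + 1 : ℕ))) * (κ / 4 * Real.exp (η₂ * j0))) := by
          have e1 : Real.exp (η₂ * n) = Real.exp (η₂ * n') * Real.exp (η₂ * (m + 1 : ℕ)) *
              Real.exp (η₂ * j0) := by
            rw [← Real.exp_add, ← Real.exp_add, hn']
            congr 1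
            push_cast
            ring
          rw [e1]
          field_simp
      _ ≤ _ := by gcongr
  · push Not at hdeep
    rcases Nat.eq_zero_or_pos n with h0 | h0
    · rw [h0]
      simp only [Function.iterate_zero, deriv_id, norm_one, Nat.cast_zero, mul_zero, Real.exp_zero]
      linarith
    · obtain ⟨n₁, rfl⟩ : ∃ n₁, n = n₁ + 1 := ⟨n - 1, by omega⟩
      have h4 := (H c R y n₁ hR hRr hc (fun j hj => (h3 j (by omega)).trans (by norm_num))
        (fun j hj => hdeep j (by omega))).1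
      have h5 : 1 ≤ ‖(f d c)^[n₁] y‖ := by
        by_contra hcon
        push Not at hcon
        have h6 : ‖(f d c)^[n₁ + 1] y‖ ≤ ‖(f d c)^[n₁] y‖ ^ d + 2 := by
          rw [Function.iterate_succ_apply']
          exact norm_up hc2
        have h7 : ‖(f d c)^[n₁] y‖ ^ d ≤ 1 := pow_le_one₀ (norm_nonneg _) hcon.le
        linarith
      rw [deriv_it_succ, norm_mul, norm_mul, norm_pow, RCLike.norm_natCast]
      have h6 : (1 : ℝ) ≤ d * ‖(f d c)^[n₁] y‖ ^ (d - 1) := by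
        have := one_le_pow₀ (M₀ := ℝ) h5 (n := d - 1)
        nlinarith
      have h7 : k0 * Real.exp (η₂ * (n₁ + 1 : ℕ)) ≤ κ * R ^ (1 - g) * Real.exp (η * n₁) := by
        have e1 : κ * R ^ (1 - g) * Real.exp (η * n₁) = k0 * Real.exp (η * (n₁ + 1 : ℕ)) := by
          rw [hk0, mul_assoc _ (Real.exp (-η)), ← Real.exp_add]
          congr 2
          push_cast
          ring
        rw [e1]
        apply mul_le_mul_of_nonneg_left _ hk00.le
        exact Real.exp_le_exp.mpr (mul_le_mul_of_nonneg_right hη₂2 (Nat.cast_nonneg _))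
      calc k0 * Real.exp (η₂ * (n₁ + 1 : ℕ)) ≤ ‖deriv ((f d c)^[n₁]) y‖ := h7.trans h4
        _ = 1 * ‖deriv ((f d c)^[n₁]) y‖ := (one_mul _).symm
        _ ≤ _ := mul_le_mul_of_nonneg_right h6 (norm_nonneg _)

end Pool.Agent.N253.UX
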