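import Mathlib
import Pool.Agent.N253.NR.C
import Pool.Agent.N253.UX.Main

/-!
# Renormalizations of large period: a bound for the period which is uniform in the parameter

The arguments of `N253/NR/A.lean`, `N253/NR/B.lean` and `N253/NR/C.lean`, with explicit rate
(helper253).
-/

set_option autoImplicit false

open Set Filter Metric Topology

namespace Pool.Agent.N253.UX

open Pool.Agent.TH279.MD Pool.Agent.Y298.SH Pool.Agent.Y298.SH.CD Pool.Agent.Y298.CA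
open Pool.Agent.H712R2 (P fc)
open Pool.Agent.N253
open Pool.Agent.N253.LC (Ray)
open Pool.Agent.N253.LC.Der
open Pool.Agent.N253.LS (Slow)
open Pool.Agent.N253.SM
open Pool.Agent.N253.NR
open Pool.Agent.H713R2.AR (KK)
open Pool.Agent.Y736.RN (PolyLike YY tree front_poly dc totallyDisconnected_of_dimH Deg)

/-- Displacement along the rays. -/
theorem dispE {d : ℕ} {c : ℂ} (hd : 2 ≤ d) {C₁ lam : ℝ} (hCE : CEp d C₁ lam c) {κ η : ℝ}
    (hκ : 0 < κ) (hκ1 : κ ≤ 1) (hη : 0 < η) (hηd : η ≤ Real.log d) (H : ExpEsc d c κ η) :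
    ∃ C β : ℝ, 1 ≤ C ∧ 0 < β ∧ β ≤ 1 ∧ β * Real.log d = η ∧
    ∀ (j : ℕ) (v : ℂ) (Y : ℝ → ℂ) (a b : ℝ), 0 < a → Ray d c j v Y a b → b ≤ 1 →
      ‖Y a - Y b‖ ≤ C * b ^ β := by
  obtain ⟨C, hC, HD⟩ := LC.t_DER d hd
  have hc2 : ‖c‖ ≤ 2 := hCE.bd 0
  have hdR : (2 : ℝ) ≤ d := by exact_mod_cast hd
  have hd0 : (0 : ℝ) < d := by linarith
  have hlog : 0 < Real.log d := Real.log_pos (by linarith)
  obtain ⟨β, hβ⟩ : ∃ β : ℝ, β = η / Real.log d := ⟨_, rfl⟩
  have hβ0 : 0 < β := by rw [hβ]; positivity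
  have hβ1 : β ≤ 1 := by rw [hβ, div_le_one hlog]; exact hηd
  have hηβ : η = β * Real.log d := by rw [hβ]; field_simp
  have hK1 : 1 ≤ C ^ 2 / κ / β := by
    rw [le_div_iff₀ hβ0, le_div_iff₀ hκ]
    nlinarith
  refine ⟨C ^ 2 / κ / β, β, hK1, hβ0, hβ1, hηβ.symm, ?_⟩
  intro j v Y a b ha hR hb
  have hint := LC.t_INT Y a b (C ^ 2 / κ) β 0 (fun _ => 0) (fun _ => 0) (fun _ => 0) ha hR.le
    (by positivity) hβ0 hβ1 hR.cont (fun _ => le_rfl) (fun i hi => absurd hi (Nat.not_lt_zero i)) ?_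
  · simpa using hint
  intro t ht _
  -- the time of escape
  have ht0 : 0 < t := ha.trans ht.1
  have hj3 : 3 < ‖(f d c)^[j] (Y t)‖ := by
    rw [hR.eq t (Ioo_subset_Icc_self ht), norm_mul, hR.unit, mul_one, Complex.norm_real,
      Real.norm_of_nonneg (Real.exp_pos _).le]
    have h1 := hR.four
    have h2 : Real.exp ((d : ℝ) ^ j * a) ≤ Real.exp ((d : ℝ) ^ j * t) := by
      apply Real.exp_le_exp.mpr
      exact mul_le_mul_of_nonneg_left ht.1.le (by positivity)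
    linarith
  obtain ⟨k, hk⟩ : ∃ k, k = Nat.find (⟨j, hj3⟩ : ∃ k, 3 < ‖(f d c)^[k] (Y t)‖) := ⟨_, rfl⟩
  have hk3 : 3 < ‖(f d c)^[k] (Y t)‖ := by
    rw [hk]; exact Nat.find_spec (⟨j, hj3⟩ : ∃ k, 3 < ‖(f d c)^[k] (Y t)‖)
  have hkj : k ≤ j := by rw [hk]; exact Nat.find_min' _ hj3
  have hkm : ∀ l < k, ‖(f d c)^[l] (Y t)‖ ≤ 3 := by
    intro l hl
    rw [hk] at hl
    exact not_lt.mp (Nat.find_min _ hl)
  obtain ⟨h1, y', hy', h2⟩ := HD c j v Y a b hR (by linarith) hb t ht k hkj hkm hk3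
  refine ⟨y', hy', ?_⟩
  have h3 := H (Y t) k hkm hk3
  have h4 : ‖y'‖ * (κ * Real.exp (η * k)) ≤ C * d ^ k :=
    (mul_le_mul_of_nonneg_left h3 (norm_nonneg _)).trans h2
  -- `exp (η k) = (d ^ k) ^ β`
  have h5 : Real.exp (η * k) = ((d : ℝ) ^ k) ^ β := by
    rw [Real.rpow_def_of_pos (by positivity), Real.log_pow, hηβ]
    ring_nf
  rw [h5] at h4
  have hX : 0 < (d : ℝ) ^ k := by positivity
  have h6 : ‖y'‖ ≤ C / κ * ((d : ℝ) ^ k) ^ (1 - β) := by
    rw [Real.rpow_sub hX, Real.rpow_one, div_mul_div_comm, le_div_iff₀ (by positivity)]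
    linarith
  have h7 : ((d : ℝ) ^ k) ^ (1 - β) ≤ (C / t) ^ (1 - β) := by
    apply Real.rpow_le_rpow hX.le _ (by linarith)
    rwa [le_div_iff₀ ht0]
  have h8 : (C / t) ^ (1 - β) ≤ C * t ^ (β - 1) := by
    rw [Real.div_rpow (by linarith) ht0.le, div_eq_mul_inv, ← Real.rpow_neg ht0.le]
    rw [show -(1 - β) = β - 1 by ring]
    apply mul_le_mul_of_nonneg_right _ (by positivity)
    calc C ^ (1 - β) ≤ C ^ (1 : ℝ) := Real.rpow_le_rpow_of_exponent_le hC (by linarith)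
      _ = C := Real.rpow_one C
  calc ‖y'‖ ≤ C / κ * ((d : ℝ) ^ k) ^ (1 - β) := h6
    _ ≤ C / κ * (C * t ^ (β - 1)) := by
        apply mul_le_mul_of_nonneg_left (h7.trans h8) (by positivity)
    _ = C ^ 2 / κ * t ^ (β - 1) := by ring

/-- Derivatives of the iterates along escaping orbits. -/
theorem lowE {d : ℕ} {c : ℂ} (hd : 2 ≤ d) {C₁ lam : ℝ} (hCE : CEp d C₁ lam c) {κ η : ℝ}
    (hκ : 0 < κ) (hη : 0 < η) (H : ExpEsc d c κ η) :
    ∀ m₁ : ℕ, ∃ B : ℝ, 0 < B ∧ ∀ (m : ℕ) (w q : ℂ), (f d c)^[m] w = q → ‖q‖ ≤ 3 →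
      3 < ‖(f d c)^[m₁] q‖ → Real.exp (η * m) ≤ B * ‖deriv ((f d c)^[m]) w‖ := by
  have hc2 : ‖c‖ ≤ 2 := hCE.bd 0
  have hdR : (2 : ℝ) ≤ d := by exact_mod_cast hd
  obtain ⟨Q, hQ⟩ : ∃ Q : ℝ, Q = (d : ℝ) * 3 ^ (d - 1) := ⟨_, rfl⟩
  have hQ1 : 1 ≤ Q := by
    rw [hQ]
    have : (1 : ℝ) ≤ 3 ^ (d - 1) := one_le_pow₀ (by norm_num)
    nlinarith
  refine fun m₁ => ⟨Q ^ m₁ / κ, by positivity, ?_⟩
  intro m w q hq hq3 hq1
  -- the time of escape of `q`
  obtain ⟨k, hk⟩ : ∃ k, k = Nat.find (⟨m₁, hq1⟩ : ∃ k, 3 < ‖(f d c)^[k] q‖) := ⟨_, rfl⟩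
  have hk3 : 3 < ‖(f d c)^[k] q‖ := by
    rw [hk]; exact Nat.find_spec (⟨m₁, hq1⟩ : ∃ k, 3 < ‖(f d c)^[k] q‖)
  have hkm₁ : k ≤ m₁ := by rw [hk]; exact Nat.find_min' _ hq1
  have hkm : ∀ l < k, ‖(f d c)^[l] q‖ ≤ 3 := by
    intro l hl
    rw [hk] at hl
    exact not_lt.mp (Nat.find_min _ hl)
  -- the orbit of `w` up to `m`
  have hstep : ∀ l, 3 < ‖(f d c)^[l] w‖ → 3 < ‖(f d c)^[l + 1] w‖ := by
    intro l hl
    rw [Function.iterate_succ_apply']
    set u := (f d c)^[l] w with hu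
    have h1 : ‖u ^ d‖ ≤ ‖f d c u‖ + ‖c‖ := by
      have := norm_sub_le (f d c u) c
      unfold f at this ⊢
      rwa [add_sub_cancel_right] at this
    rw [norm_pow] at h1
    have h2 : ‖u‖ ^ 2 ≤ ‖u‖ ^ d := pow_le_pow_right₀ (by linarith) hd
    nlinarith
  have hw : ∀ l ≤ m, ‖(f d c)^[l] w‖ ≤ 3 := by
    intro l hl
    by_contra hcon
    push Not at hcon
    have : ∀ i, 3 < ‖(f d c)^[l + i] w‖ := by
      intro i
      induction i with
      | zero => exact hcon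
      | succ i ih => exact hstep _ ih
    have h1 := this (m - l)
    rw [show l + (m - l) = m by omega, hq] at h1
    linarith
  have hesc : ∀ l < m + k, ‖(f d c)^[l] w‖ ≤ 3 := by
    intro l hl
    rcases Nat.lt_or_ge l m with h | h
    · exact hw l h.le
    · obtain ⟨i, rfl⟩ : ∃ i, l = i + m := ⟨l - m, by omega⟩
      rw [Function.iterate_add_apply, hq]
      exact hkm i (by omega)
  have hesc2 : 3 < ‖(f d c)^[m + k] w‖ := by
    rw [add_comm, Function.iterate_add_apply, hq]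
    exact hk3
  have h1 := H w (m + k) hesc hesc2
  have h2 := deriv_prod d c m k w
  have h3 : ∏ i ∈ Finset.range k, ‖(f d c)^[m + i] w‖ ^ (d - 1) ≤ (3 ^ (d - 1)) ^ k := by
    calc ∏ i ∈ Finset.range k, ‖(f d c)^[m + i] w‖ ^ (d - 1)
        ≤ ∏ _i ∈ Finset.range k, (3 : ℝ) ^ (d - 1) := by
          apply Finset.prod_le_prod
          · intro i _
            positivity
          · intro i hi
            rw [Finset.mem_range] at hi
            exact pow_le_pow_left₀ (norm_nonneg _) (hesc _ (by omega)) _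
      _ = (3 ^ (d - 1)) ^ k := by rw [Finset.prod_const, Finset.card_range]
  have h4 : (d : ℝ) ^ k * ∏ i ∈ Finset.range k, ‖(f d c)^[m + i] w‖ ^ (d - 1) ≤ Q ^ m₁ := by
    calc (d : ℝ) ^ k * ∏ i ∈ Finset.range k, ‖(f d c)^[m + i] w‖ ^ (d - 1)
        ≤ (d : ℝ) ^ k * (3 ^ (d - 1)) ^ k := by gcongr
      _ = Q ^ k := by rw [hQ, mul_pow]
      _ ≤ Q ^ m₁ := pow_le_pow_right₀ hQ1 hkm₁
  have h5 : Real.exp (η * m) ≤ Real.exp (η * (m + k : ℕ)) := by
    apply Real.exp_le_exp.mpr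
    push_cast
    have : 0 ≤ η * (k : ℝ) := by positivity
    nlinarith
  rw [div_mul_eq_mul_div, le_div_iff₀ hκ]
  calc Real.exp (η * m) * κ ≤ κ * Real.exp (η * (m + k : ℕ)) := by nlinarith
    _ ≤ ‖deriv ((f d c)^[m + k]) w‖ := h1
    _ = ‖deriv ((f d c)^[m]) w‖ * _ := h2
    _ ≤ ‖deriv ((f d c)^[m]) w‖ * Q ^ m₁ := mul_le_mul_of_nonneg_left h4 (norm_nonneg _)
    _ = Q ^ m₁ * ‖deriv ((f d c)^[m]) w‖ := mul_comm _ _

/-- **The covering of the trapped set.** -/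
theorem coverE {d : ℕ} {c : ℂ} (hd : 2 ≤ d) (hS : Slow d c) {κ η : ℝ} (hκ : 0 < κ) (hκ1 : κ ≤ 1)
    (hη : 0 < η) (hηd : η ≤ Real.log d) (HE : ExpEsc d c κ η) : ∀ p : ℕ, 1 ≤ p →
    ∀ U : Set ℂ, PolyLike d ((fc d c)^[p]) U → ∃ (K₄ : ℝ) (F : Set ℂ), F.Finite ∧ F ⊆ U ∧
      ∀ x ∈ TR d c p U, ∀ n : ℕ, ∃ p₀ ∈ F, ∃ z ∈ YY d p U p₀ n c,
        ‖x - z‖ ≤ K₄ * Real.exp (-(η * p * n)) := by
  have hint := interior_KK' hd hS
  obtain ⟨⟨C₁, lam, hCE⟩, -⟩ := id hS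
  obtain ⟨C, β, hC, hβ, hβ1, hβη, HD⟩ := dispE hd hCE hκ hκ1 hη hηd HE
  have HL := lowE hd hCE hκ hη HE
  have hc2 : ‖c‖ ≤ 2 := hCE.bd 0
  have hdR : (2 : ℝ) ≤ d := by exact_mod_cast hd
  have hd0 : (0 : ℝ) < d := by linarith
  have hlog : 0 < Real.log d := Real.log_pos (by linarith)
  obtain ⟨η', hη'⟩ : ∃ η' : ℝ, η' = η := ⟨_, rfl⟩
  have hη'0 : 0 < η' := by rw [hη']; exact hη
  have hη'1 : η' ≤ η := hη'.le
  have hη'2 : η' ≤ β * Real.log d := by rw [hη', hβη]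
  rw [← hη']
  refine fun p hp U hU => ?_
  have hUo : IsOpen U := hU.1
  obtain ⟨K, hK⟩ : ∃ K : Set ℂ, K = TR d c p U := ⟨_, rfl⟩
  have hKc : IsCompact K := by rw [hK]; exact TR_compact hU
  have hKU : K ⊆ U := by rw [hK]; exact TR_sub
  have hKKK : ∀ x ∈ K, x ∈ KK d c := by
    intro x hx
    rw [hK] at hx
    exact TR_KK hp hU.2.1 hx
  -- the distance from the complement
  obtain ⟨δ, hδ, hδU⟩ := hKc.exists_cthickening_subset_open hUo hKU
  obtain ⟨δ₁, hδ₁⟩ : ∃ δ₁ : ℝ, δ₁ = min δ (1 / 2) := ⟨_, rfl⟩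
  have hδ₁0 : 0 < δ₁ := by rw [hδ₁]; positivity
  have hδ₁2 : δ₁ ≤ 1 / 2 := by rw [hδ₁]; exact min_le_right _ _
  have hinU : ∀ k ∈ K, ∀ y : ℂ, ‖y - k‖ ≤ δ₁ → y ∈ U := by
    intro k hk y hy
    apply hδU
    apply mem_cthickening_of_dist_le y k δ K hk
    rw [dist_eq_norm]
    exact hy.trans (by rw [hδ₁]; exact min_le_left _ _)
  -- the level `t₁`
  obtain ⟨t₁, ht₁⟩ : ∃ t₁ : ℝ, t₁ = min 1 ((δ₁ / (4 * C)) ^ (1 / β)) := ⟨_, rfl⟩
  have ht₁0 : 0 < t₁ := by rw [ht₁]; positivity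
  have ht₁1 : t₁ ≤ 1 := by rw [ht₁]; exact min_le_left _ _
  have ht₁2 : C * t₁ ^ β ≤ δ₁ / 4 := by
    have h1 : t₁ ^ β ≤ δ₁ / (4 * C) := by
      have h2 : t₁ ≤ (δ₁ / (4 * C)) ^ (1 / β) := by rw [ht₁]; exact min_le_right _ _
      have h3 := Real.rpow_le_rpow ht₁0.le h2 hβ.le
      rwa [← Real.rpow_mul (by positivity), one_div, inv_mul_cancel₀ hβ.ne', Real.rpow_one] at h3
    calc C * t₁ ^ β ≤ C * (δ₁ / (4 * C)) := by gcongr
      _ = δ₁ / 4 := by field_simp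
  obtain ⟨m₁, hm₁⟩ : ∃ m₁ : ℕ, 7 / t₁ < (d : ℝ) ^ m₁ := pow_unbounded_of_one_lt _ (by linarith)
  rw [div_lt_iff₀ ht₁0] at hm₁
  obtain ⟨A₁, hA₁⟩ : ∃ A₁ : ℝ, A₁ = Real.exp ((d : ℝ) ^ m₁ * t₁) := ⟨_, rfl⟩
  have hA₁7 : 7 ≤ A₁ := by
    rw [hA₁]
    have := Real.add_one_le_exp ((d : ℝ) ^ m₁ * t₁)
    linarith
  obtain ⟨m₂, hm₂⟩ : ∃ m₂ : ℕ, Real.log 4 / t₁ < (d : ℝ) ^ m₂ :=
    pow_unbounded_of_one_lt _ (by linarith)
  rw [div_lt_iff₀ ht₁0] at hm₂
  obtain ⟨B, hB, HB⟩ := HL m₁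
  -- the compact set `L`
  obtain ⟨L, hL⟩ : ∃ L : Set ℂ, L = cthickening (δ₁ / 2) K ∩ {y | A₁ - 2 ≤ ‖(f d c)^[m₁] y‖} :=
    ⟨_, rfl⟩
  have hLc : IsCompact L := by
    rw [hL]
    exact hKc.cthickening.inter_right (isClosed_le continuous_const (cont_f d c m₁).norm)
  obtain ⟨δ₃, hδ₃, hδ₃u⟩ := Metric.uniformContinuousOn_iff.mp
    ((isCompact_closedBall (0 : ℂ) 3).uniformContinuousOn_of_continuous
      (cont_f d c m₁).continuousOn) 1 one_pos
  obtain ⟨δ₄, hδ₄⟩ : ∃ δ₄ : ℝ, δ₄ = min (min (δ₃ / 2) (1 / 4)) (δ₁ / (16 * B)) := ⟨_, rfl⟩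
  have hδ₄0 : 0 < δ₄ := by rw [hδ₄]; positivity
  have hδ₄3 : δ₄ < δ₃ := by
    have : δ₄ ≤ δ₃ / 2 := by rw [hδ₄]; exact (min_le_left _ _).trans (min_le_left _ _)
    linarith
  have hδ₄4 : δ₄ ≤ 1 / 4 := by rw [hδ₄]; exact (min_le_left _ _).trans (min_le_right _ _)
  have hδ₄B : 2 * B * δ₄ ≤ δ₁ / 8 := by
    have h1 : δ₄ ≤ δ₁ / (16 * B) := by rw [hδ₄]; exact min_le_right _ _
    calc 2 * B * δ₄ ≤ 2 * B * (δ₁ / (16 * B)) := by gcongr
      _ = δ₁ / 8 := by field_simp; norm_num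
  obtain ⟨F, hFL, hFf, hFc⟩ := hLc.finite_cover_balls hδ₄0
  refine ⟨1 + C + 2 * B * δ₄, F, hFf, ?_, ?_⟩
  · intro y hy
    have h1 := hFL hy
    rw [hL] at h1
    apply hδU
    refine cthickening_mono ?_ K h1.1
    have : δ₁ ≤ δ := by rw [hδ₁]; exact min_le_left _ _
    linarith
  intro x hx n
  rw [← hK] at hx
  have hxKK := hKKK x hx
  have hx2 : ∀ i, ‖(f d c)^[i] x‖ ≤ 2 := bd_two hd hc2 hxKK
  have hxK : ∀ i, (f d c)^[p * i] x ∈ K := by
    intro i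
    rw [hK] at hx ⊢
    exact TR_inv hx i
  obtain ⟨N', hN'⟩ : ∃ N' : ℕ, N' = p * n + m₂ := ⟨_, rfl⟩
  obtain ⟨En, hEn⟩ : ∃ En : ℝ, En = Real.exp (-(η' * p * n)) := ⟨_, rfl⟩
  have hEn0 : 0 < En := by rw [hEn]; exact Real.exp_pos _
  rw [← hEn]
  -- the escaping point `x'`
  obtain ⟨x', hx'K, hx'1, hx'2, hx'3⟩ : ∃ x' : ℂ, x' ∉ KK d c ∧
      (∀ i ∈ Finset.range (n + 1), ‖(f d c)^[p * i] x' - (f d c)^[p * i] x‖ < δ₁ / 8) ∧
      ‖(f d c)^[N'] x'‖ < 3 ∧ ‖x' - x‖ < En := by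
    have h1 : ∀ᶠ y in 𝓝 x, ∀ i ∈ Finset.range (n + 1),
        ‖(f d c)^[p * i] y - (f d c)^[p * i] x‖ < δ₁ / 8 := by
      rw [Filter.eventually_all_finset]
      intro i _
      have h2 : Tendsto (fun y => ‖(f d c)^[p * i] y - (f d c)^[p * i] x‖) (𝓝 x) (𝓝 0) := by
        have h3 : Continuous (fun y => ‖(f d c)^[p * i] y - (f d c)^[p * i] x‖) :=
          ((cont_f d c _).sub continuous_const).norm
        have h4 := h3.tendsto x
        simpa using h4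
      exact h2.eventually_lt_const (by positivity)
    have h2 : ∀ᶠ y in 𝓝 x, ‖(f d c)^[N'] y‖ < 3 := by
      have h3 := (cont_f d c N').norm.tendsto x
      exact h3.eventually_lt_const (lt_of_le_of_lt (hx2 N') (by norm_num))
    have h3 : ∀ᶠ y in 𝓝 x, ‖y - x‖ < En := by
      have h4 : Continuous (fun y : ℂ => ‖y - x‖) := (continuous_id.sub continuous_const).norm
      have h5 := h4.tendsto x
      rw [sub_self, norm_zero] at h5
      exact h5.eventually_lt_const hEn0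
    have hdense := interior_eq_empty_iff_dense_compl.mp hint
    obtain ⟨y, hy1, hy2⟩ := mem_closure_iff_nhds.mp (hdense x) _ (h1.and (h2.and h3))
    exact ⟨y, hy2, hy1.1, hy1.2.1, hy1.2.2⟩
  obtain ⟨j, hj4, hjm, hjN⟩ := ((esc_of_notMem hx'K).and
    ((eventually_ge_atTop (p * n + m₁)).and (eventually_ge_atTop N'))).exists
  have hdj : 0 < (d : ℝ) ^ j := by positivity
  have hfj0 : 0 < ‖(f d c)^[j] x'‖ := by linarith
  obtain ⟨a, ha⟩ : ∃ a : ℝ, a = Real.log ‖(f d c)^[j] x'‖ / (d : ℝ) ^ j := ⟨_, rfl⟩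
  have haj : (d : ℝ) ^ j * a = Real.log ‖(f d c)^[j] x'‖ := by rw [ha]; field_simp
  have hexpa : Real.exp ((d : ℝ) ^ j * a) = ‖(f d c)^[j] x'‖ := by rw [haj, Real.exp_log hfj0]
  have ha0 : 0 < a := by
    rw [ha]
    exact div_pos (Real.log_pos (by linarith)) hdj
  obtain ⟨b, hb⟩ : ∃ b : ℝ, b = t₁ / (d : ℝ) ^ (p * n) := ⟨_, rfl⟩
  have hb0 : 0 < b := by rw [hb]; positivity
  have hdb : (d : ℝ) ^ (p * n) * b = t₁ := by rw [hb]; field_simp
  have hab : a < b := by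
    have h1 := up_two hd hc2 ((f d c)^[N'] x') (j - N')
    rw [← Function.iterate_add_apply, show j - N' + N' = j by omega] at h1
    -- use the sharper bound with 4
    have hupp : ∀ i, ‖(f d c)^[N' + i] x'‖ ≤ 4 ^ (d ^ i) - 1 := by
      intro i
      exact Pool.Agent.N253.LC.Der.upper hd (x := fun i => ‖(f d c)^[i] x'‖) (fun i => norm_nonneg _) (by
        intro i
        show ‖(f d c)^[i + 1] x'‖ ≤ ‖(f d c)^[i] x'‖ ^ d + 5 / 2
        rw [Function.iterate_succ_apply']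
        unfold f
        refine (norm_add_le _ _).trans ?_
        rw [norm_pow]
        linarith) hx'2.le i
    have h2 := hupp (j - N')
    rw [show N' + (j - N') = j by omega] at h2
    have h3 : Real.log ‖(f d c)^[j] x'‖ ≤ (d : ℝ) ^ (j - N') * Real.log 4 := by
      have h4 : Real.log ‖(f d c)^[j] x'‖ ≤ Real.log ((4 : ℝ) ^ (d ^ (j - N'))) :=
        Real.log_le_log hfj0 (by linarith)
      rw [Real.log_pow] at h4
      exact_mod_cast h4
    have h5 : (d : ℝ) ^ j = (d : ℝ) ^ (j - N') * ((d : ℝ) ^ (p * n) * (d : ℝ) ^ m₂) := by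
      rw [← pow_add, ← pow_add]
      congr 1
      omega
    rw [ha, hb, div_lt_div_iff₀ hdj (by positivity)]
    have hpn : 0 < (d : ℝ) ^ (p * n) := by positivity
    have hjn : 0 < (d : ℝ) ^ (j - N') := by positivity
    calc Real.log ‖(f d c)^[j] x'‖ * (d : ℝ) ^ (p * n)
        ≤ ((d : ℝ) ^ (j - N') * Real.log 4) * (d : ℝ) ^ (p * n) := by gcongr
      _ < ((d : ℝ) ^ (j - N') * ((d : ℝ) ^ m₂ * t₁)) * (d : ℝ) ^ (p * n) := by gcongr
      _ = t₁ * (d : ℝ) ^ j := by rw [h5]; ring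
  obtain ⟨v, hv⟩ : ∃ v : ℂ, v = (f d c)^[j] x' / ‖(f d c)^[j] x'‖ := ⟨_, rfl⟩
  have hfjc : (‖(f d c)^[j] x'‖ : ℂ) ≠ 0 := by exact_mod_cast hfj0.ne'
  have hv1 : ‖v‖ = 1 := by
    rw [hv, norm_div, Complex.norm_real, norm_norm, div_self hfj0.ne']
  have hva : (Real.exp ((d : ℝ) ^ j * a) : ℂ) * v = (f d c)^[j] x' := by
    rw [hexpa, hv]
    field_simp
  have hnorm : ∀ t : ℝ, ‖(Real.exp ((d : ℝ) ^ j * t) : ℂ) * v‖ = Real.exp ((d : ℝ) ^ j * t) := by
    intro t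
    rw [norm_mul, hv1, mul_one, Complex.norm_real, Real.norm_of_nonneg (Real.exp_pos _).le]
  -- the ray
  obtain ⟨Y, hYc, hYa, hYe⟩ : ∃ Y : ℝ → ℂ, ContinuousOn Y (Icc a b) ∧ Y a = x' ∧
      ∀ t ∈ Icc a b, (f d c)^[j] (Y t) = (Real.exp ((d : ℝ) ^ j * t) : ℂ) * v := by
    obtain ⟨Z, hZc, hZ0, hZe⟩ := lift_it (d := d) (c := c) (m := j)
      (γ := fun s => (Real.exp ((d : ℝ) ^ j * (a + s * (b - a))) : ℂ) * v) (z := x')
      (by fun_prop)
      (by
        intro s hs z hz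
        apply deriv_ne hd
        intro l hl
        refine ne_zero_of_esc hCE (n := j) ?_ hl
        rw [hz, hnorm]
        have h1 : Real.exp ((d : ℝ) ^ j * a) ≤ Real.exp ((d : ℝ) ^ j * (a + s * (b - a))) := by
          apply Real.exp_le_exp.mpr
          apply mul_le_mul_of_nonneg_left _ hdj.le
          have := mul_nonneg hs.1 (sub_nonneg.mpr hab.le)
          linarith
        rw [hexpa] at h1
        linarith)
      (by simp only [zero_mul, add_zero]; exact hva.symm)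
    refine ⟨fun t => Z ((t - a) / (b - a)), ?_, ?_, ?_⟩
    · refine hZc.comp (by fun_prop) (fun t ht => ?_)
      have hba : 0 < b - a := by linarith
      exact ⟨div_nonneg (by linarith [ht.1]) hba.le, by
        rw [div_le_one hba]; linarith [ht.2]⟩
    · simp only [sub_self, zero_div]
      exact hZ0
    · intro t ht
      have hba : 0 < b - a := by linarith
      have h1 := hZe ((t - a) / (b - a)) ⟨div_nonneg (by linarith [ht.1]) hba.le, by
        rw [div_le_one hba]; linarith [ht.2]⟩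
      rw [h1, div_mul_cancel₀ _ hba.ne']
      congr 3
      ring_nf
  have hYdisp : ∀ i ≤ n, ‖(f d c)^[p * i] (Y a) - (f d c)^[p * i] (Y b)‖ ≤
      C * ((d : ℝ) ^ (p * i) * b) ^ β := by
    intro i hi
    have hdi : 0 < (d : ℝ) ^ (p * i) := by positivity
    have hpi : p * i ≤ p * n := Nat.mul_le_mul_left p hi
    have hji : (d : ℝ) ^ j = (d : ℝ) ^ (j - p * i) * (d : ℝ) ^ (p * i) := by
      rw [← pow_add]; congr 1; omega
    have hR : Ray d c (j - p * i) v (fun t => (f d c)^[p * i] (Y (t / (d : ℝ) ^ (p * i))))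
        ((d : ℝ) ^ (p * i) * a) ((d : ℝ) ^ (p * i) * b) := by
      refine ⟨?_, ?_, hv1, ?_, ?_, ?_⟩
      · exact mul_le_mul_of_nonneg_left hab.le hdi.le
      · refine (cont_f d c _).comp_continuousOn (hYc.comp (by fun_prop) (fun t ht => ?_))
        exact ⟨by rw [le_div_iff₀ hdi]; linarith [ht.1], by rw [div_le_iff₀ hdi]; linarith [ht.2]⟩
      · intro t ht
        show (f d c)^[j - p * i] ((f d c)^[p * i] (Y (t / (d : ℝ) ^ (p * i)))) = _
        rw [← Function.iterate_add_apply, show j - p * i + p * i = j by omega,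
          hYe _ ⟨by rw [le_div_iff₀ hdi]; linarith [ht.1], by rw [div_le_iff₀ hdi]; linarith [ht.2]⟩]
        congr 3
        rw [hji]
        field_simp
      · rw [← mul_assoc, ← hji, hexpa]
        exact hj4
      · intro i' hi' _
        rw [← mul_assoc, ← hji, hexpa]
        exact lt_of_le_of_lt (P_norm hCE hi') (by linarith)
    have h1 := HD _ v _ _ _ (by positivity) hR (by
      calc (d : ℝ) ^ (p * i) * b ≤ (d : ℝ) ^ (p * n) * b := by
            gcongr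
            linarith
        _ = t₁ := hdb
        _ ≤ 1 := ht₁1)
    rw [mul_div_cancel_left₀ _ hdi.ne', mul_div_cancel_left₀ _ hdi.ne'] at h1
    exact h1
  have hYdisp2 : ∀ i ≤ n, ‖(f d c)^[p * i] x' - (f d c)^[p * i] (Y b)‖ ≤ δ₁ / 4 := by
    intro i hi
    have h1 := hYdisp i hi
    rw [hYa] at h1
    have h2 : ((d : ℝ) ^ (p * i) * b) ^ β ≤ t₁ ^ β := by
      apply Real.rpow_le_rpow (by positivity) _ hβ.le
      calc (d : ℝ) ^ (p * i) * b ≤ (d : ℝ) ^ (p * n) * b := by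
            gcongr
            linarith
        _ = t₁ := hdb
    have h3 : C * ((d : ℝ) ^ (p * i) * b) ^ β ≤ C * t₁ ^ β := by gcongr
    linarith
  obtain ⟨z', hz'⟩ : ∃ z' : ℂ, z' = Y b := ⟨_, rfl⟩
  rw [← hz'] at hYdisp2
  obtain ⟨y', hy'⟩ : ∃ y' : ℂ, y' = (f d c)^[p * n] z' := ⟨_, rfl⟩
  have hnear : ∀ i ≤ n, ‖(f d c)^[p * i] z' - (f d c)^[p * i] x‖ ≤ 3 * δ₁ / 8 := by
    intro i hi
    have h1 := hYdisp2 i hi
    have h2 := hx'1 i (Finset.mem_range.mpr (by omega))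
    have h3 := norm_add_le ((f d c)^[p * i] z' - (f d c)^[p * i] x')
      ((f d c)^[p * i] x' - (f d c)^[p * i] x)
    rw [sub_add_sub_cancel, norm_sub_rev ((f d c)^[p * i] z') ((f d c)^[p * i] x')] at h3
    linarith
  -- the level of `y'`
  have hy'A : A₁ - 2 ≤ ‖(f d c)^[m₁] y'‖ := by
    have h1 : (f d c)^[j] z' = (Real.exp ((d : ℝ) ^ j * b) : ℂ) * v := by
      rw [hz']
      exact hYe b (right_mem_Icc.mpr hab.le)
    obtain ⟨l, hl⟩ : ∃ l : ℕ, j = l + (m₁ + p * n) := ⟨j - (m₁ + p * n), by omega⟩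
    have h2 : (f d c)^[l] ((f d c)^[m₁] y') = (f d c)^[j] z' := by
      rw [hy', hl, Function.iterate_add_apply, Function.iterate_add_apply _ m₁]
    have h3 := up_two hd hc2 ((f d c)^[m₁] y') l
    rw [h2, h1, hnorm] at h3
    have h4 : Real.exp ((d : ℝ) ^ j * b) = A₁ ^ (d ^ l) := by
      rw [hA₁, ← Real.exp_nat_mul]
      congr 1
      rw [hl, pow_add, pow_add]
      push_cast
      rw [← hdb]
      ring
    rw [h4] at h3
    have h5 : A₁ ^ (d ^ l) < (‖(f d c)^[m₁] y'‖ + 2) ^ (d ^ l) := by linarith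
    have h6 := lt_of_pow_lt_pow_left₀ _ (by positivity) h5
    linarith
  have hy'L : y' ∈ L := by
    rw [hL]
    refine ⟨?_, hy'A⟩
    apply mem_cthickening_of_dist_le y' ((f d c)^[p * n] x) _ K (hxK n)
    rw [dist_eq_norm, hy']
    have := hnear n le_rfl
    linarith
  have hy'3 : ‖y'‖ ≤ 2 + 1 / 4 := by
    have h1 := hnear n le_rfl
    rw [← hy'] at h1
    have h2 := norm_add_le (y' - (f d c)^[p * n] x) ((f d c)^[p * n] x)
    rw [sub_add_cancel] at h2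
    linarith [hx2 (p * n)]
  obtain ⟨p₀, hp₀F, hp₀⟩ : ∃ p₀ ∈ F, ‖y' - p₀‖ < δ₄ := by
    have h1 := hFc hy'L
    rw [mem_iUnion₂] at h1
    obtain ⟨p₀, h2, h3⟩ := h1
    rw [mem_ball, dist_eq_norm] at h3
    exact ⟨p₀, h2, h3⟩
  -- the segment
  have hseg3 : ∀ s ∈ Icc (0 : ℝ) 1, ‖y' + s * (p₀ - y')‖ ≤ 3 := by
    intro s hs
    have h1 : ‖(s : ℂ) * (p₀ - y')‖ ≤ 1 * δ₄ := by
      rw [norm_mul, Complex.norm_real, Real.norm_of_nonneg hs.1, norm_sub_rev]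
      exact mul_le_mul hs.2 hp₀.le (norm_nonneg _) zero_le_one
    have h2 := norm_add_le y' ((s : ℂ) * (p₀ - y'))
    linarith
  have hp₀3 : ‖p₀‖ ≤ 3 := by
    have := hseg3 1 (right_mem_Icc.mpr zero_le_one)
    simpa using this
  have hsegE : ∀ s ∈ Icc (0 : ℝ) 1, 3 < ‖(f d c)^[m₁] (y' + s * (p₀ - y'))‖ := by
    intro s hs
    have h1 : dist (y' + s * (p₀ - y')) p₀ < δ₃ := by
      rw [dist_eq_norm]
      have e : y' + s * (p₀ - y') - p₀ = ((1 - s : ℝ) : ℂ) * (y' - p₀) := by push_cast; ring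
      rw [e, norm_mul, Complex.norm_real, Real.norm_of_nonneg (by linarith [hs.2])]
      have h2 : (1 - s) * ‖y' - p₀‖ ≤ 1 * ‖y' - p₀‖ := by
        apply mul_le_mul_of_nonneg_right _ (norm_nonneg _)
        linarith [hs.1]
      linarith
    have h2 := hδ₃u _ (by rw [mem_closedBall, dist_zero_right]; exact hseg3 s hs) p₀
      (by rw [mem_closedBall, dist_zero_right]; exact hp₀3) h1
    have h3 := (hFL hp₀F)
    rw [hL] at h3
    have h4 : A₁ - 2 ≤ ‖(f d c)^[m₁] p₀‖ := h3.2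
    rw [dist_eq_norm, norm_sub_rev] at h2
    have h5 := norm_sub_norm_le ((f d c)^[m₁] p₀) ((f d c)^[m₁] (y' + s * (p₀ - y')))
    linarith
  obtain ⟨W, hWc, hW0, hWe⟩ := lift_it (d := d) (c := c) (m := p * n)
    (γ := fun s => y' + s * (p₀ - y')) (z := z') (by fun_prop)
    (by
      intro s hs w hw
      apply deriv_ne hd
      intro l hl
      refine ne_zero_of_esc hCE (n := m₁ + p * n) ?_ (by omega)
      rw [Function.iterate_add_apply, hw]
      exact hsegE s hs)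
    (by simp [hy'])
  have hWdisp : ∀ i ≤ n, ‖(f d c)^[p * i] (W 0) - (f d c)^[p * i] (W 1)‖ ≤
      2 * B * δ₄ * Real.exp (-(η * (p * n - p * i : ℕ))) := by
    intro i hi
    have hpi : p * i ≤ p * n := Nat.mul_le_mul_left p hi
    have h1 := seg_disp (d := d) (c := c) (m := p * n - p * i)
      (D := Real.exp (η * (p * n - p * i : ℕ)) / B) (by positivity)
      (Z := fun s => (f d c)^[p * i] (W s)) (q₀ := y') (q₁ := p₀)
      ((cont_f d c _).comp_continuousOn hWc)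
      (by
        intro s hs
        show (f d c)^[p * n - p * i] ((f d c)^[p * i] (W s)) = _
        rw [← Function.iterate_add_apply, show p * n - p * i + p * i = p * n by omega]
        exact hWe s hs)
      (by
        intro s hs
        rw [div_le_iff₀ hB]
        have h0 := HB (p * n - p * i) ((f d c)^[p * i] (W s)) _ (by
          rw [← Function.iterate_add_apply, show p * n - p * i + p * i = p * n by omega]
          exact hWe s hs) (hseg3 s hs) (hsegE s hs)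
        linarith)
    refine h1.trans ?_
    rw [Real.exp_neg, norm_sub_rev]
    have h2 : ‖y' - p₀‖ / (Real.exp (η * (p * n - p * i : ℕ)) / B) =
        B * ‖y' - p₀‖ * (Real.exp (η * (p * n - p * i : ℕ)))⁻¹ := by
      field_simp
    rw [h2]
    have h3 : B * ‖y' - p₀‖ * (Real.exp (η * (p * n - p * i : ℕ)))⁻¹ ≤
        B * δ₄ * (Real.exp (η * (p * n - p * i : ℕ)))⁻¹ := by gcongr
    linarith
  have hWd2 : ∀ i ≤ n, ‖(f d c)^[p * i] z' - (f d c)^[p * i] (W 1)‖ ≤ δ₁ / 8 := by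
    intro i hi
    have h1 := hWdisp i hi
    rw [hW0] at h1
    have h2 : Real.exp (-(η * (p * n - p * i : ℕ))) ≤ 1 := by
      rw [Real.exp_le_one_iff]
      have : 0 ≤ η * ((p * n - p * i : ℕ) : ℝ) := by positivity
      linarith
    have h3 : 2 * B * δ₄ * Real.exp (-(η * (p * n - p * i : ℕ))) ≤ 2 * B * δ₄ * 1 := by gcongr
    linarith
  refine ⟨p₀, hp₀F, W 1, ⟨?_, ?_⟩, ?_⟩
  · intro i hi
    show (f d c)^[p * i] (W 1) ∈ U
    apply hinU _ (hxK i)
    have h1 := hWd2 i hi.le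
    have h2 := hnear i hi.le
    have h3 := norm_add_le ((f d c)^[p * i] (W 1) - (f d c)^[p * i] z')
      ((f d c)^[p * i] z' - (f d c)^[p * i] x)
    rw [sub_add_sub_cancel, norm_sub_rev ((f d c)^[p * i] (W 1)) ((f d c)^[p * i] z')] at h3
    linarith
  · show (f d c)^[p * n] (W 1) = p₀
    rw [hWe 1 (right_mem_Icc.mpr zero_le_one)]
    push_cast
    ring
  · have h1 := hYdisp 0 (Nat.zero_le n)
    have h2 := hWdisp 0 (Nat.zero_le n)
    simp only [mul_zero, pow_zero, one_mul, Function.iterate_zero, id_eq, Nat.sub_zero] at h1 h2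
    rw [hYa, ← hz'] at h1
    rw [hW0] at h2
    have h3 : b ^ β ≤ En := by
      have h4 : b ≤ Real.exp (-(Real.log d * (p * n : ℕ))) := by
        rw [Real.exp_neg, mul_comm, Real.exp_nat_mul, Real.exp_log hd0, hb, div_eq_mul_inv]
        have : 0 < ((d : ℝ) ^ (p * n))⁻¹ := by positivity
        nlinarith
      have h5 := Real.rpow_le_rpow hb0.le h4 hβ.le
      rw [← Real.exp_mul] at h5
      refine h5.trans ?_
      rw [hEn]
      apply Real.exp_le_exp.mpr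
      push_cast
      have h6 : η' * ((p : ℝ) * n) ≤ β * Real.log d * ((p : ℝ) * n) := by gcongr
      nlinarith
    have h7 : Real.exp (-(η * (p * n : ℕ))) ≤ En := by
      rw [hEn]
      apply Real.exp_le_exp.mpr
      push_cast
      have h6 : η' * ((p : ℝ) * n) ≤ η * ((p : ℝ) * n) := by gcongr
      nlinarith
    have h8 : C * b ^ β ≤ C * En := by gcongr
    have h9 : 2 * B * δ₄ * Real.exp (-(η * (p * n : ℕ))) ≤ 2 * B * δ₄ * En := by gcongr
    have h10 := norm_add_le (x - x') ((x' - z') + (z' - W 1))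
    have h11 := norm_add_le (x' - z') (z' - W 1)
    have e : x - x' + (x' - z' + (z' - W 1)) = x - W 1 := by ring
    rw [e] at h10
    rw [norm_sub_rev x' x] at hx'3
    linarith


/-- **For periods `p > log d / η` there is no renormalization.** -/
theorem no_ren {d : ℕ} {c : ℂ} (hd : 2 ≤ d) (hS : Slow d c) {κ η : ℝ} (hκ : 0 < κ) (hκ1 : κ ≤ 1)
    (hη : 0 < η) (hηd : η ≤ Real.log d) (HE : ExpEsc d c κ η) {p : ℕ} (hp1 : 1 ≤ p)
    (hpN : Real.log d / η < p) : ¬ RenC d c p := by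
  rintro ⟨U, hU, h0, hconn⟩
  have hdR : (2 : ℝ) ≤ d := by exact_mod_cast hd
  have hlog : 0 < Real.log d := Real.log_pos (by linarith)
  have htd : IsTotallyDisconnected (TR d c p U) := by
    obtain ⟨K₄, F, hF, hFU, hcov⟩ := coverE hd hS hκ hκ1 hη hηd HE p hp1 U hU
    have hX : 0 < η * p := by
      have : (0 : ℝ) < p := by exact_mod_cast hp1
      positivity
    apply totallyDisconnected_of_dimH
    have hdeg : Deg d p U c := by
      intro w hw
      have h1 : w ∈ (fc d c)^[p] '' U := hU.2.2.1 (subset_closure hw)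
      have h4 := hU.2.2.2.2 w h1
      have h5 : {z | z ∈ U ∧ (fc d c)^[p] z = w}.Finite := finite_of_encard_le_coe h4
      refine ⟨h5, ?_⟩
      rw [← h5.cast_ncard_eq] at h4
      exact_mod_cast h4
    have h1 := dc d (η * p) K₄ F.ncard 0 (fun n => ⋃ p₀ ∈ F, YY d p U p₀ n c) (TR d c p U)
      (by linarith) hX
      (fun n _ => by
        have h2 := biUnion_ncard hF (g := fun p₀ => YY d p U p₀ n c) (k := d ^ n)
          (fun p₀ hp₀ => tree hdeg (hFU hp₀) n)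
        refine ⟨h2.1, ?_⟩
        exact_mod_cast h2.2)
      (fun x hx => by
        apply Eventually.frequently
        refine Eventually.of_forall fun n => ?_
        obtain ⟨p₀, hp₀, z, hz, hz2⟩ := hcov x hx n
        exact ⟨z, mem_iUnion₂.mpr ⟨p₀, hp₀, hz⟩, hz2⟩)
    refine h1.trans_lt ?_
    rw [ENNReal.ofReal_lt_one, div_lt_one hX]
    rw [div_lt_iff₀ hη] at hpN
    linarith
  have h2 : (TR d c p U).Subsingleton := htd _ (Subset.refl _) hconn
  have h3 : (f d c)^[p * 1] 0 ∈ TR d c p U := TR_inv h0 1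
  have h4 : (f d c)^[p * 1] 0 = 0 := h2 h3 h0
  obtain ⟨C, hC, h5⟩ := hS.2 1 one_pos
  have h6 := h5 (p - 1)
  have h7 : zz d c (p - 1) = 0 := by
    rw [← h4]
    unfold zz
    obtain ⟨k, rfl⟩ : ∃ k, p = k + 1 := ⟨p - 1, by omega⟩
    rw [mul_one, Function.iterate_succ_apply, Nat.add_sub_cancel]
    congr 1
    unfold f
    rw [zero_pow (by omega), zero_add]
  rw [h7, norm_zero, mul_zero] at h6
  linarith

end Pool.Agent.N253.UX
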