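import Mathlib
import Pool.Agent.N253.UX.Ren
import Pool.Agent.N253.LS.Cov

/-!
# Renormalizable parameters of large period near a parameter with a Lyapunov exponent (helper253)
-/

set_option autoImplicit false

open Set Filter Metric Topology

namespace Pool.Agent.N253.UX

open Pool.Agent.TH279.MD Pool.Agent.Y298.SH Pool.Agent.Y298.SH.CD Pool.Agent.Y298.CA
open Pool.Agent.N253
open Pool.Agent.N253.NR (RenC)
open Pool.Agent.N253.LS (exn ent comp choice conn_small pow_two_R)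

/-- **The critical orbit of a renormalizable parameter of large period enters the small disc.** -/
theorem ren_entry {d : ℕ} {χ : ℝ} {c₀ : ℂ} (hd : 2 ≤ d) (hL : Lyap d χ c₀) {τ : ℝ}
    (hτ1 : 3 / (4 * (d : ℝ)) ≤ τ) (hτ2 : τ * ((d : ℝ) - 1) < 1) :
    ∃ (N₀ : ℕ) (R₀ : ℝ), 1 ≤ N₀ ∧ 0 < R₀ ∧ ∀ R : ℝ, 0 < R → R ≤ R₀ →
    ∀ c ∈ N62a1eb23.multibrotSet d, ‖c - c₀‖ ≤ R → (∃ p : ℕ, N₀ ≤ p ∧ RenC d c p) →
    ∃ k : ℕ, 1 ≤ k ∧ ‖(f d c)^[k] 0‖ < R ^ τ := by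
  have hτ0 : 0 < τ := lt_of_lt_of_le (by positivity) hτ1
  obtain ⟨η, R₁, hη, hηd, hR₁, H1⟩ := uexp (exn EC.t_PASS) hd hL hτ1 hτ2
  obtain ⟨R₂, hR₂, H2⟩ := EC.t_SEMI EC.t_PASS (exn EC.t_PASS) d χ c₀ hd hL τ hτ0 hτ2
  obtain ⟨N, hN⟩ := exists_nat_gt (Real.log d / η)
  refine ⟨max 1 N, min R₁ R₂, le_max_left _ _, lt_min hR₁ hR₂, ?_⟩
  rintro R hR hRR c hM hc ⟨p, hp, hren⟩
  by_contra hcon
  push Not at hcon
  have hS := H2 R hR (hRR.trans (min_le_right _ _)) c hM hc hcon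
  obtain ⟨κ, hκ, hκ1, hE⟩ := H1 R hR (hRR.trans (min_le_left _ _)) c hM hc hcon
  refine no_ren hd hS hκ hκ1 hη hηd hE ((le_max_left _ _).trans hp) ?_ hren
  have : (N : ℝ) ≤ p := by exact_mod_cast (le_max_right _ _).trans hp
  linarith

/-- **Connected sets of renormalizable parameters of large period.** -/
theorem ren_sets {d : ℕ} {χ : ℝ} {c₀ : ℂ} (hd : 2 ≤ d) (hL : Lyap d χ c₀) {ε : ℝ} (hε : 0 < ε) :
    ∃ (N₀ : ℕ) (R₀ : ℝ), 1 ≤ N₀ ∧ 0 < R₀ ∧ ∀ R : ℝ, 0 < R → R ≤ R₀ →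
    (∀ Γ : Set ℂ, IsPreconnected Γ →
      (∀ t ∈ Γ, t ∈ N62a1eb23.multibrotSet d ∧ ∃ p : ℕ, N₀ ≤ p ∧ RenC d t p) →
      ∀ c₁ ∈ Γ, ‖c₁ - c₀‖ ≤ R → ∀ c ∈ Γ, ‖c - c₁‖ ≤ R ^ ((d : ℝ) / (d - 1) - ε) / 2) ∧
    ∃ 𝒲 : Set (Set ℂ), (∀ W ∈ 𝒲, IsOpen W ∧ ∀ c ∈ W, ∀ c' ∈ W,
        ‖c - c'‖ ≤ R ^ ((d : ℝ) / (d - 1) - ε)) ∧
      𝒲.PairwiseDisjoint id ∧
      ∀ t ∈ N62a1eb23.multibrotSet d, ‖t - c₀‖ < R → (∃ p : ℕ, N₀ ≤ p ∧ RenC d t p) →
        ∃ W ∈ 𝒲, t ∈ W := by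
  obtain ⟨τ, ε', hτ1, hτ2, hε', hετ, hlt⟩ := choice hd hε
  have hdR : (2 : ℝ) ≤ d := by exact_mod_cast hd
  have hτ0 : 0 < τ := lt_of_lt_of_le (by positivity) hτ1
  obtain ⟨N₀, R₁, hN₀, hR₁, H1⟩ := ren_entry hd hL hτ1 hτ2
  obtain ⟨R₂, hR₂, H2⟩ := conn_small hd hL (comp ent) hτ1 hτ2 hε' hετ
  obtain ⟨R₃, hR₃, H3⟩ := pow_two_R hlt (by linarith)
  obtain ⟨R₄, hR₄, H4⟩ := comp ent d χ c₀ hd hL τ ε' hτ1 hτ2 hε'
  refine ⟨N₀, min (min 1 R₁) (min (R₂ / 4) (min (R₁ / 4) (min R₃ R₄))), hN₀, by positivity, ?_⟩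
  intro R hR hRR
  have hR1 : R ≤ 1 := hRR.trans ((min_le_left _ _).trans (min_le_left _ _))
  have hRR1 : R ≤ R₁ := hRR.trans ((min_le_left _ _).trans (min_le_right _ _))
  have hRR2 : R ≤ R₂ / 4 := hRR.trans ((min_le_right _ _).trans (min_le_left _ _))
  have hRR1' : R ≤ R₁ / 4 := hRR.trans ((min_le_right _ _).trans ((min_le_right _ _).trans
    (min_le_left _ _)))
  have hRR3 : R ≤ R₃ := hRR.trans ((min_le_right _ _).trans ((min_le_right _ _).trans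
    ((min_le_right _ _).trans (min_le_left _ _))))
  have hRR4 : R ≤ R₄ := hRR.trans ((min_le_right _ _).trans ((min_le_right _ _).trans
    ((min_le_right _ _).trans (min_le_right _ _))))
  constructor
  · intro Γ hΓ hent c₁ hc₁ hcR c hc
    have h5 := H2 (4 * R) (by positivity) (by linarith) Γ hΓ (fun t ht htR =>
      H1 (4 * R) (by positivity) (by linarith) t (hent t ht).1 htR.le (hent t ht).2)
      c₁ hc₁ (by linarith) c hc
    have h6 := H3 R hR hRR3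
    have h7 : 0 < (4 * R) ^ (1 + τ - ε') := Real.rpow_pos_of_pos (by positivity) _
    linarith
  · obtain ⟨W, hW⟩ : ∃ W : Set ℂ, W = {t : ℂ | ‖t - c₀‖ < R ∧ ∃ k : ℕ, 1 ≤ k ∧
      ‖(f d t)^[k] 0‖ < R ^ τ} := ⟨_, rfl⟩
    have hWo : IsOpen W := by
      have e : W = {t : ℂ | ‖t - c₀‖ < R} ∩ ⋃ k : ℕ, {t : ℂ | ‖(f d t)^[k] t‖ < R ^ τ} := by
        rw [hW]
        ext t
        simp only [mem_setOf_eq, mem_inter_iff, mem_iUnion]
        refine and_congr_right fun _ => ⟨?_, ?_⟩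
        · rintro ⟨k, hk, h⟩
          obtain ⟨j, rfl⟩ : ∃ j, k = j + 1 := ⟨k - 1, by omega⟩
          exact ⟨j, by rwa [Pool.Agent.N253.EC.COMPaux.shift hd] at h⟩
        · rintro ⟨j, h⟩
          exact ⟨j + 1, by omega, by rwa [Pool.Agent.N253.EC.COMPaux.shift hd]⟩
      rw [e]
      refine IsOpen.inter ?_ (isOpen_iUnion fun k => ?_)
      · exact isOpen_lt (continuous_id.sub continuous_const).norm continuous_const
      · exact isOpen_lt (Pool.Agent.N253.EC.COMPaux.diff_it d k).continuous.norm continuous_const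
    refine ⟨{V | ∃ x ∈ W, V = connectedComponentIn W x}, ?_, ?_, ?_⟩
    · rintro V ⟨x, hx, rfl⟩
      refine ⟨hWo.connectedComponentIn, ?_⟩
      intro c hc c' hc'
      have h5 := (H4 R hR hRR4).1 _ isPreconnected_connectedComponentIn (fun y hy => by
        have := connectedComponentIn_subset W x hy
        rwa [hW] at this) c hc c' hc'
      refine h5.trans ?_
      exact Real.rpow_le_rpow_of_exponent_ge hR hR1 hlt.le
    · rintro V ⟨x, hx, rfl⟩ V' ⟨x', hx', rfl⟩ hne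
      show Disjoint (connectedComponentIn W x) (connectedComponentIn W x')
      rw [Set.disjoint_left]
      intro y hy hy'
      apply hne
      rw [connectedComponentIn_eq hy, connectedComponentIn_eq hy']
    · intro t htM htR hren
      have htW : t ∈ W := by
        rw [hW]
        exact ⟨htR, H1 R hR hRR1 t htM htR.le hren⟩
      exact ⟨_, ⟨t, htW, rfl⟩, mem_connectedComponentIn htW⟩

end Pool.Agent.N253.UX
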